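import Pool.Agent.J4.H21.AH.Real
import Pool.Agent.Y133.Half.HRPred
import Pool.Agent.Y133.Half.Abs
import Pool.Agent.TH125.Gal.Twr

/-!
# Classes on products with a variety
-/

set_option autoImplicit false
set_option linter.unusedSectionVars false

open CategoryTheory AlgebraicGeometry

universe u v w x

namespace Pool.Agent.J4.H21.AH

open Pool.Agent.H914 Pool.Agent.H914.VarClass Pool.Agent.H914.VarClass.Obj
  Pool.Agent.H914.WeilCohomology Pool.Agent.H281R3.HT Pool.Agent.W536.RR
open Pool.Agent.Y133.Half (ClassPred)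
open Pool.Agent.TH125.Gal (cn LSpan cn_ext as_algSpan ctr2 ctr2_apply)
open Pool.Agent.W552 (AS)

variable {k : Type u} [Field k] {𝒱 : VarClass k} {ops : CycleOps 𝒱}
  {W : WeilCohomology.{u, v} ops} {A B T Z : 𝒱.Obj}

/-- All classes of degree `2 p` with the property are algebraic. -/
def QAlg (Q : ClassPred W) (X : 𝒱.Obj) (p : ℕ) : Prop :=
  ∀ c, Q.P X p c → c ∈ spanCycles W X p

/-- The products of algebraic classes on `A` and of classes with the property on `B`. -/
noncomputable def cross (Q : ClassPred W) (A B : 𝒱.Obj) (p : ℕ) : Submodule W.K (W.H (A.prod B)) :=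
  Submodule.span W.K {c | ∃ (i j : ℕ) (z : A.Cycles) (y : W.H B), i + j = p ∧ i ≤ A.dim ∧
    A.IsCyc i z ∧ Q.P B j y ∧ c = W.map (fst A B) (W.cl A z) * W.map (snd A B) y}

/-- The products of algebraic classes on `T` and of pull-backs from `Z`. -/
noncomputable def fromB (Q : ClassPred W) (q : T ⟶ Z) (p : ℕ) : Submodule W.K (W.H T) :=
  Submodule.span W.K {c | ∃ (i j : ℕ) (e : T.Cycles) (z : W.H Z), i + j = p ∧
    i + Z.dim ≤ T.dim ∧ T.IsCyc i e ∧ Q.P Z j z ∧ c = W.cl T e * W.map q z}

/-- The classes with the property come from `Z`. -/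
structure QSplit (Q : ClassPred W) (q : T ⟶ Z) : Prop where
  kun : ∀ p c, Q.P T p c → c ∈ fromB Q q p
  alg : ∀ p, QAlg Q T p ↔ ∀ j ≤ p, p + Z.dim ≤ j + T.dim → QAlg Q Z j

section proj

variable {Q : ClassPred W}

theorem proj_cross {a : W.H A} (ha : a ∈ algSpan W A) {b : W.H B} (hb : b ∈ Q.sp B) (p : ℕ) :
    H914.proj (W.isInternal (A.prod B)) (2 * p)
      (W.map (fst A B) a * W.map (snd A B) b) ∈ cross Q A B p := by
  refine algSpan_induction (p := fun a => H914.proj (W.isInternal (A.prod B)) (2 * p)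
      (W.map (fst A B) a * W.map (snd A B) b) ∈ cross Q A B p) ?_ ?_ ?_ ?_ ha
  · rw [map_zero, zero_mul, map_zero]
    exact Submodule.zero_mem _
  · intro x y hx hy
    rw [map_add, add_mul, map_add]
    exact Submodule.add_mem _ hx hy
  · intro t x hx
    rw [map_smul, smul_mul_assoc, map_smul]
    exact Submodule.smul_mem _ _ hx
  · intro i z hz
    refine ClassPred.sp_ind (q := fun b => H914.proj (W.isInternal (A.prod B)) (2 * p)
      (W.map (fst A B) (W.cl A z) * W.map (snd A B) b) ∈ cross Q A B p) ?_ ?_ ?_ hb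
    · intro j y hy
      have hmem : W.map (fst A B) (W.cl A z) * W.map (snd A B) y ∈
          W.gr (A.prod B) (2 * i + 2 * j) :=
        W.mul_mem (W.map_mem _ (W.cl_mem hz)) (W.map_mem _ (Q.gr hy))
      by_cases hij : i + j = p
      · rw [proj_same _ (by rwa [show 2 * p = 2 * i + 2 * j by omega])]
        by_cases hi : i ≤ A.dim
        · exact Submodule.subset_span ⟨i, j, z, y, hij, hi, hz, hy, rfl⟩
        · have h1 : W.cl A z = 0 := by
            have h2 := W.cl_mem hz
            rw [W.gr_eq_bot A _ (by omega)] at h2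
            exact (Submodule.mem_bot _).1 h2
          rw [h1, map_zero, zero_mul]
          exact Submodule.zero_mem _
      · rw [proj_ne _ hmem (by omega)]
        exact Submodule.zero_mem _
    · rw [map_zero, mul_zero, map_zero]
      exact Submodule.zero_mem _
    · intro x y hx hy
      rw [map_add, mul_add, map_add]
      exact Submodule.add_mem _ hx hy

/-- A class which is a combination of products is a combination of products of the right degree. -/
theorem mem_cross_of_sum {N : ℕ} {e : Fin N → W.H A} (he : ∀ k, e k ∈ algSpan W A)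
    {y : Fin N → W.H B} (hy : ∀ k, y k ∈ Q.sp B) {p : ℕ} {c : W.H (A.prod B)}
    (hc : Q.P _ p c) (h : c = ∑ k, W.map (fst A B) (e k) * W.map (snd A B) (y k)) :
    c ∈ cross Q A B p := by
  rw [← proj_same (W.isInternal (A.prod B)) (Q.gr hc), h, map_sum]
  exact Submodule.sum_mem _ fun k _ => proj_cross (he k) (hy k) p

theorem cn_sp {u : W.H A} (hu : u ∈ algSpan W A) {c : W.H (A.prod B)}
    (hc : c ∈ Q.sp (A.prod B)) : cn u c ∈ Q.sp B :=
  Q.sys.push _ (Q.sys.mul (ClassPred.alg_le (algSpan_map _ hu)) hc)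

end proj

section frame

/-- Dual bases of the space of the algebraic classes. -/
def IsFrame (W : WeilCohomology.{u, v} ops) (A : 𝒱.Obj) {N : ℕ} (e d : Fin N → W.H A) : Prop :=
  (∀ k, e k ∈ algSpan W A) ∧ (∀ k, d k ∈ algSpan W A) ∧
    ∀ a ∈ algSpan W A, a = ∑ k, W.tr A (d k * a) • e k

theorem exists_frame (h : ∀ a ∈ algSpan W A, (∀ b ∈ algSpan W A, W.tr A (a * b) = 0) → a = 0) :
    ∃ (N : ℕ) (e d : Fin N → W.H A), IsFrame W A e d := by
  classical
  let S := algSpan W A
  let β : LinearMap.BilinForm W.K S :=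
    ((LinearMap.mul W.K (W.H A)).compr₂ (W.tr A)).compl₁₂ S.subtype S.subtype
  have hβ : ∀ x y : S, β x y = W.tr A (x * y) := fun x y => rfl
  have hnd : β.Nondegenerate := by
    rw [LinearMap.BilinForm.nondegenerate_iff_ker_eq_bot, LinearMap.ker_eq_bot']
    intro x hx
    refine Subtype.ext (h x x.2 fun b hb => ?_)
    exact DFunLike.congr_fun hx (⟨b, hb⟩ : S)
  let b := Module.finBasis W.K S
  let b' := β.dualBasis hnd b
  refine ⟨_, fun k => b k, fun k => b' k, fun k => (b k).2, fun k => (b' k).2, fun a ha => ?_⟩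
  have h1 : (⟨a, ha⟩ : S) = ∑ k, β (b' k) ⟨a, ha⟩ • b k := by
    conv_lhs => rw [← b.sum_repr ⟨a, ha⟩]
    refine Finset.sum_congr rfl fun k _ => ?_
    congr 1
    conv_rhs => rw [← b.sum_repr ⟨a, ha⟩]
    rw [map_sum, Finset.sum_eq_single k]
    · rw [map_smul, LinearMap.BilinForm.apply_dualBasis_left, if_pos rfl, smul_eq_mul, mul_one]
    · intro l _ hl
      rw [map_smul, LinearMap.BilinForm.apply_dualBasis_left, if_neg hl, smul_zero]
    · intro h0
      exact absurd (Finset.mem_univ _) h0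
  have h2 := congrArg Subtype.val h1
  rw [AddSubmonoidClass.coe_finsetSum] at h2
  exact h2

variable {V : WeilCohomology.{u, w} ops}

theorem hom_cn (κ : Realization W V) (u : W.H A) (c : W.H (A.prod B)) :
    κ.hom B (cn u c) = cn (κ.hom A u) (κ.hom _ c) := by
  rw [cn, cn, κ.push, map_mul, κ.map']

theorem frame_V (κ : Realization W V) {N : ℕ} {e d : Fin N → W.H A} (F : IsFrame W A e d)
    {a : V.H A} (ha : a ∈ algSpan V A) :
    a = ∑ k, V.tr A (κ.hom A (d k) * a) • κ.hom A (e k) := by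
  refine algSpan_induction (p := fun a => a = ∑ k, V.tr A (κ.hom A (d k) * a) • κ.hom A (e k))
    ?_ ?_ ?_ ?_ ha
  · simp
  · intro x y hx hy
    conv_lhs => rw [hx, hy]
    rw [← Finset.sum_add_distrib]
    refine Finset.sum_congr rfl fun k _ => ?_
    rw [mul_add, map_add, add_smul]
  · intro t x hx
    conv_lhs => rw [hx]
    rw [Finset.smul_sum]
    refine Finset.sum_congr rfl fun k _ => ?_
    rw [mul_smul_comm, map_smul, smul_smul, smul_eq_mul]
  · intro j z hz
    rw [← κ.cl' z]
    conv_lhs => rw [F.2.2 _ (cl_mem_algSpan hz), map_sum]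
    refine Finset.sum_congr rfl fun k _ => ?_
    rw [← map_mul, κ.tr, κ.smul]

theorem lspan_frame (κ : Realization W V) {N : ℕ} {e d : Fin N → W.H A} (F : IsFrame W A e d)
    {c : V.H (A.prod B)} (hc : c ∈ LSpan V A B) :
    c = ∑ k, V.map (fst A B) (κ.hom A (e k)) * V.map (snd A B) (cn (κ.hom A (d k)) c) := by
  induction hc using Submodule.span_induction with
  | mem c hc =>
    obtain ⟨a, ha, b, rfl⟩ := hc
    conv_lhs => rw [frame_V κ F ha, map_sum, Finset.sum_mul]
    refine Finset.sum_congr rfl fun k _ => ?_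
    rw [cn_ext, map_smul, map_smul, mul_smul_comm, smul_mul_assoc]
  | zero => simp [cn]
  | add x y _ _ hx hy =>
    conv_lhs => rw [hx, hy]
    rw [← Finset.sum_add_distrib]
    refine Finset.sum_congr rfl fun k _ => ?_
    rw [Pool.Agent.TH125.Gal.cn_add, map_add, mul_add]
  | smul q x _ hx =>
    conv_lhs => rw [hx]
    rw [Finset.smul_sum]
    refine Finset.sum_congr rfl fun k _ => ?_
    rw [Pool.Agent.TH125.Gal.cn_smul, map_smul, mul_smul_comm]

/-- Classes on the first factor. -/
theorem alg_of_fst (h1 : (1 : V.H B) ≠ 0) {a : V.H A} (h : V.map (fst A B) a ∈ LSpan V A B) :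
    a ∈ algSpan V A := by
  obtain ⟨φ, hφ⟩ : ∃ φ : V.H B →ₗ[V.K] V.K, φ 1 = 1 := by
    obtain ⟨φ, hφ⟩ : ∃ φ : Module.Dual V.K (V.H B), φ 1 ≠ 0 := by
      by_contra hcon
      push Not at hcon
      exact h1 ((Module.forall_dual_apply_eq_zero_iff V.K _).1 hcon)
    exact ⟨(φ 1)⁻¹ • φ, by rw [LinearMap.smul_apply, smul_eq_mul, inv_mul_cancel₀ hφ]⟩
  have h2 : ∀ c ∈ LSpan V A B, ctr2 φ c ∈ algSpan V A := by
    intro c hc
    induction hc using Submodule.span_induction with
    | mem c hc =>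
      obtain ⟨a, ha, b, rfl⟩ := hc
      rw [ctr2_apply]
      exact Submodule.smul_mem _ _ ha
    | zero => rw [map_zero]; exact Submodule.zero_mem _
    | add x y _ _ hx hy => rw [map_add]; exact Submodule.add_mem _ hx hy
    | smul q x _ hx => rw [map_smul]; exact Submodule.smul_mem _ _ hx
  have h3 := h2 _ h
  have h4 : V.map (fst A B) a = V.map (fst A B) a * V.map (snd A B) 1 := by
    rw [map_one, mul_one]
  rwa [h4, ctr2_apply, hφ, one_smul] at h3

/-- **The classes on a product whose realizations are combinations of products.** -/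
theorem mem_cross [Algebra W.K ℝ] (κ : Realization W V) {Q : ClassPred W}
    (hHR : ∃ D, Q.HR A D)
    (h : ∀ p (c : W.H (A.prod B)), Q.P _ p c → κ.hom _ c ∈ LSpan V A B) {p : ℕ}
    {c : W.H (A.prod B)} (hc : Q.P _ p c) : c ∈ cross Q A B p := by
  by_cases hB1 : (1 : V.H B) = 0
  · have h0 : c = 0 := by
      apply κ.injective
      rw [map_zero, ← one_mul (κ.hom _ c), ← map_one (V.map (snd A B)), hB1, map_zero, zero_mul]
    rw [h0]
    exact Submodule.zero_mem _
  have hA : Q.sp A = algSpan W A := by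
    refine le_antisymm (fun c hc => ?_) ClassPred.alg_le
    refine ClassPred.sp_ind (q := fun c => c ∈ algSpan W A) (fun j c hc => ?_)
      (Submodule.zero_mem _) (fun _ _ ha hb => Submodule.add_mem _ ha hb) hc
    refine κ.mem_algSpan (alg_of_fst hB1 ?_)
    rw [← κ.map']
    exact h j _ (Q.map _ hc)
  obtain ⟨D, hD⟩ := hHR
  have hnd := hD.nondeg
  obtain ⟨N, e, d, F⟩ := exists_frame (W := W) (A := A) (fun a ha hab => by
    refine hnd a ?_ fun y hy => ?_
    · exact ClassPred.alg_le ha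
    · have hy' : y ∈ Q.sp A := hy
      rw [hA] at hy'
      exact hab y hy')
  refine mem_cross_of_sum (Q := Q) F.1 (y := fun k => cn (d k) c)
    (fun k => cn_sp (F.2.1 k) (ClassPred.sp_of hc)) hc ?_
  apply κ.injective
  conv_lhs => rw [lspan_frame κ F (h p c hc)]
  rw [map_sum]
  refine Finset.sum_congr rfl fun k _ => ?_
  rw [map_mul, κ.map', κ.map', hom_cn]

end frame

section alg

variable {Q : ClassPred W}

theorem cross_le {p : ℕ} (h : ∀ j ≤ p, p ≤ j + A.dim → QAlg Q B j) {c : W.H (A.prod B)}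
    (hc : c ∈ cross Q A B p) (hP : Q.P _ p c) : c ∈ spanCycles W (A.prod B) p := by
  refine Pool.Agent.Y133.Half.spanCycles_of_algSpan ?_ (Q.gr hP)
  refine (Submodule.span_le.2 ?_ : cross Q A B p ≤ algSpan W (A.prod B)) hc
  rintro _ ⟨i, j, z, y, hij, hi, hz, hy, rfl⟩
  exact algSpan_mul (algSpan_map _ (as_algSpan (AS.of ⟨z, hz, rfl⟩)))
    (algSpan_map _ (Pool.Agent.Y129.span_le_algSpan j (h j (by omega) (by omega) y hy)))

theorem qalg_factor [Algebra W.K ℝ] (hHR : ∃ D, Q.HR A D) (h1 : (1 : W.H A) ≠ 0) {p : ℕ}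
    (h : QAlg Q (A.prod B) p) {j : ℕ} (hj : j ≤ p) (hjp : p ≤ j + A.dim) : QAlg Q B j := by
  intro y hy
  obtain ⟨D, hD⟩ := hHR
  have hw : ∀ n, Q.P A n (W.cl A D ^ n) := fun n => by
    have := ClassPred.pow (Q.cl hD.cyc) n
    rwa [one_mul] at this
  have hpos : W.tr A (W.cl A D ^ A.dim) ≠ 0 := by
    intro h0
    have h2 := hD.pos 0 (by omega) 1 (ClassPred.one A) ?_ h1
    · rw [mul_one, mul_one, Nat.mul_zero, Nat.sub_zero, h0, map_zero, mul_zero] at h2
      exact lt_irrefl _ h2
    · have h3 := Q.gr (hw (A.dim - 2 * 0 + 1))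
      rw [W.gr_eq_bot A _ (by omega)] at h3
      rw [(Submodule.mem_bot _).1 h3, zero_mul]
  obtain ⟨i, hi⟩ := Nat.exists_eq_add_of_le hj
  have hc : Q.P (A.prod B) p (W.map (fst A B) (W.cl A D ^ i) * W.map (snd A B) y) := by
    have := Q.mul (Q.map (fst A B) (hw i)) (Q.map (snd A B) hy)
    rwa [show i + j = p by omega] at this
  have h2 := Pool.Agent.Y129.span_le_algSpan p (h _ hc)
  have hDa : W.cl A D ∈ algSpan W A := as_algSpan (AS.of ⟨D, hD.cyc, rfl⟩)
  have hDp : ∀ n, W.cl A D ^ n ∈ algSpan W A := by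
    intro n
    induction n with
    | zero => rw [pow_zero]; exact one_mem_algSpan
    | succ n ih => rw [pow_succ]; exact algSpan_mul ih hDa
  have h3 := algSpan_push (snd A B) (algSpan_mul (algSpan_map (fst A B) (hDp (A.dim - i))) h2)
  rw [← mul_assoc, ← map_mul, ← pow_add, show A.dim - i + i = A.dim by omega, W.push_snd] at h3
  refine Pool.Agent.Y133.Half.spanCycles_of_algSpan ?_ (Q.gr hy)
  have h4 := Submodule.smul_mem _ (W.tr A (W.cl A D ^ A.dim))⁻¹ h3
  rwa [smul_smul, inv_mul_cancel₀ hpos, one_smul] at h4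

theorem QSplit.refl (Q : ClassPred W) (Z : 𝒱.Obj) : QSplit Q (𝟙 Z) := by
  constructor
  · intro p c hc
    refine Submodule.subset_span ⟨0, p, Z.V.fundCycle, c, by omega, by omega,
      Z.V.fundCycle_mem, hc, ?_⟩
    rw [W.cl_fund, one_mul, W.map_id]
  · intro p
    constructor
    · intro h j hj hj'
      obtain rfl : j = p := by omega
      exact h
    · intro h
      exact h p le_rfl (by omega)

/-- One more factor. -/
theorem QSplit.comp [Algebra W.K ℝ] (hHR : ∃ D, Q.HR A D) (h1 : (1 : W.H A) ≠ 0) {q : T ⟶ Z}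
    (hq : QSplit Q q) (hdim : Z.dim ≤ T.dim)
    (h : ∀ p c, Q.P (A.prod T) p c → c ∈ cross Q A T p) :
    QSplit Q (snd A T ≫ q) := by
  have hd : (A.prod T).dim = A.dim + T.dim := rfl
  constructor
  · intro p c hc
    refine (Submodule.span_le.2 ?_ : cross Q A T p ≤ fromB Q (snd A T ≫ q) p) (h p c hc)
    rintro _ ⟨i, j, z, y, hij, hi, hz, hy, rfl⟩
    have h2 := hq.kun j y hy
    refine (Submodule.map_le_iff_le_comap.1 ?_ : fromB Q q j ≤ (fromB Q (snd A T ≫ q) p).comap
      ((LinearMap.mulLeft W.K (W.map (fst A T) (W.cl A z))) ∘ₗ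
        (W.map (snd A T)).toLinearMap)) h2
    rw [fromB, Submodule.map_span, Submodule.span_le]
    rintro _ ⟨_, ⟨i', j', e, x, hij', hi', he, hx, rfl⟩, rfl⟩
    refine Submodule.subset_span ⟨i + i', j', ops.mul (ops.pull (fst A T) z)
      (ops.pull (snd A T) e), x, by omega, ?_, ops.mul_mem (ops.pull_mem _ hz)
      (ops.pull_mem _ he), hx, ?_⟩
    · rw [hd]; omega
    · rw [LinearMap.comp_apply, LinearMap.mulLeft_apply, AlgHom.toLinearMap_apply, map_mul,
        W.cl_mul, W.cl_pull, W.cl_pull, W.map_comp, mul_assoc]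
  · intro p
    constructor
    · intro h2 j hj hj'
      have h3 : ∀ l ≤ p, p ≤ l + A.dim → QAlg Q T l := fun l hl hl' =>
        qalg_factor hHR h1 h2 hl hl'
      rw [hd] at hj'
      rcases Nat.le_total p (j + A.dim) with h4 | h4
      · exact (hq.alg j).1 (h3 j hj h4) j le_rfl (by omega)
      · exact (hq.alg (p - A.dim)).1 (h3 _ (by omega) (by omega)) j (by omega) (by omega)
    · intro h2 c hc
      refine cross_le (fun l hl hl' => (hq.alg l).2 fun j hj hj' => h2 j (by omega) ?_)
        (h p c hc) hc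
      rw [hd]; omega

theorem push_mul_map (g : A ⟶ B) (a : W.H A) (c : W.H B) :
    W.push g (a * W.map g c) = W.push g a * c := by
  apply W.tr_ext
  intro y
  rw [W.tr_push, mul_assoc, ← map_mul, ← W.tr_push, mul_assoc]

/-- Varieties dominated by `A`. -/
theorem qalg_dominated {g : A ⟶ B} {i : ℕ} {w : A.Cycles} (hw : A.IsCyc i w)
    (h1 : W.push g (W.cl A w) = 1) {p : ℕ} (h : QAlg Q A p) : QAlg Q B p := by
  intro c hc
  refine Pool.Agent.Y133.Half.spanCycles_of_algSpan ?_ (Q.gr hc)
  have h2 := algSpan_push g (algSpan_mul (as_algSpan (AS.of ⟨w, hw, rfl⟩))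
    (Pool.Agent.Y129.span_le_algSpan p (h _ (Q.map g hc))))
  have h3 : W.push g (W.cl A w * W.map g c) = c := by
    rw [push_mul_map]
    exact (congrArg (· * c) h1).trans (one_mul c)
  rwa [h3] at h2

end alg

end Pool.Agent.J4.H21.AH
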