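import Pool.Agent.Y133.Half.AbsDefs

/-!
# Absolute Hodge classes and group actions on another cohomology theory: definitions

In the intended use `k` is the algebraic closure of a finitely generated subfield `F` of `ℂ`, `W` is
the cohomology with rational coefficients of the complex manifolds, `V` is the `ℓ`-adic cohomology,
and `Γ` is the Galois group of `k` over `F`, which acts on the `ℓ`-adic cohomology of the varieties
that come from `F`. (Every complex variety comes from a variety over such a field `k`, with the same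
absolute Hodge classes and the same classes of algebraic cycles.)
-/

set_option autoImplicit false

open CategoryTheory AlgebraicGeometry

universe u v w x

namespace Pool.Agent.J4.H21.AH

section Alg

variable {K A L B : Type*} [Field K] [Ring A] [Algebra K A] [Field L] [Ring B] [Algebra L B]

/-- The actions of the group `Γ` on the `K`-algebra `A`. -/
abbrev Act (K A Γ : Type*) [Field K] [Ring A] [Algebra K A] [Group Γ] := Γ →* (A ≃ₐ[K] A)

/-- The characters of `Γ` with values in `K`. -/
abbrev Chr (K Γ : Type*) [Field K] [Group Γ] := Γ →* Kˣ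

/-- The ring homomorphisms. -/
abbrev Hm (A B : Type*) [Ring A] [Ring B] := A →+* B

/-- The images of the sets `H j`. -/
def images (f : A →+* B) (H : ℕ → Set A) (j : ℕ) : Set B := f '' H j

/-- The orthogonal complement of the sets `C j` (the classes of algebraic cycles of codimension
`j`): the transcendental classes. -/
def trans (tr : A →ₗ[K] K) (C : ℕ → Set A) : Submodule K A :=
  ⨅ (j : ℕ) (c : A) (_ : c ∈ C j), LinearMap.ker (tr ∘ₗ LinearMap.mulRight K c)

/-- Numerical and homological equivalence of algebraic cycles coincide: a class of an algebraic cycle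
that is orthogonal to the classes of all algebraic cycles is zero. -/
def NumEqHom (tr : A →ₗ[K] K) (C : ℕ → Set A) : Prop :=
  ∀ j, ∀ c ∈ C j, (∀ i, ∀ d ∈ C i, tr (c * d) = 0) → c = 0

/-- The formal properties of the comparison `f` between two cohomology algebras of a variety, with
coefficients in `K` and in `L`: it is semilinear, respects the degrees, the orientations and the
classes of algebraic cycles, and its image spans the algebra over `L`. -/
structure IsComparison {Z : Type*} (c : K →+* L) (grA : ℕ → Submodule K A)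
    (grB : ℕ → Submodule L B) (trA : A →ₗ[K] K) (trB : B →ₗ[L] L) (clA : Z → A) (clB : Z → B)
    (f : A →+* B) : Prop where
  smul : ∀ r a, f (r • a) = c r • f a
  gr_mem : ∀ i, ∀ a ∈ grA i, f a ∈ grB i
  tr : ∀ a, trB (f a) = c (trA a)
  cl : ∀ z, f (clA z) = clB z
  span : Submodule.span L (Set.range f) = ⊤

/-- The comparison commutes with pull-backs. -/
def Commutes {A' B' : Type*} [Ring A'] [Algebra K A'] [Ring B'] [Algebra L B'] (f : A →+* B)
    (f' : A' →+* B') (g : A →ₐ[K] A') (h : B →ₐ[L] B') : Prop :=
  ∀ a, f' (g a) = h (f a)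

variable {Γ : Type*} [Group Γ]

/-- An element `g` maps an element `c` of `H j` to the product of `χ g ^ j` with an element of
`H j`. -/
def Stable (χ : Γ →* Kˣ) (ρ : Γ →* (A ≃ₐ[K] A)) (H : ℕ → Set A) : Prop :=
  ∀ g j, ∀ c ∈ H j, ∃ c' ∈ H j, ρ g c = (χ g : K) ^ j • c'

/-- The formal properties of the continuous action `ρ` of a Galois group `Γ` on the cohomology
algebra `A` of a variety of dimension `n`, where `χ` is the character of `Γ` on the Tate twists: `ρ`
respects the degrees, an element `g` multiplies the orientation by `χ g ^ n` and permutes the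
elements of `C j` (the classes of algebraic cycles of codimension `j`) and of `H j` (the absolute
Hodge classes of degree `2 j`), up to the factor `χ g ^ j`; the conditions `ρ g a = χ g ^ j a` define
closed subsets of `Γ`. -/
structure IsGal [TopologicalSpace Γ] (χ : Γ →* Kˣ) (gr : ℕ → Submodule K A) (n : ℕ)
    (tr : A →ₗ[K] K) (C H : ℕ → Set A) (ρ : Γ →* (A ≃ₐ[K] A)) : Prop where
  gr_mem : ∀ g i, ∀ a ∈ gr i, ρ g a ∈ gr i
  tr_act : ∀ g a, tr (ρ g a) = (χ g : K) ^ n * tr a
  cyc : Stable χ ρ C
  abs : Stable χ ρ H
  closed : ∀ (j : ℕ) (a : A), IsClosed {g | ρ g a = (χ g : K) ^ j • a}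

/-- The homomorphisms `f` and `h` are equivariant. -/
def Equivar {B D : Type*} [Ring B] [Algebra K B] [Ring D] [Algebra K D] (f : A →ₐ[K] D)
    (h : B →ₐ[K] D) (ρ : Γ →* (A ≃ₐ[K] A)) (σ : Γ →* (B ≃ₐ[K] B)) (υ : Γ →* (D ≃ₐ[K] D)) : Prop :=
  ∀ g, (∀ a, υ g (f a) = f (ρ g a)) ∧ ∀ b, υ g (h b) = h (σ g b)

/-- The dimension of the space of the transcendental classes. -/
noncomputable def tRank (tr : A →ₗ[K] K) (C : ℕ → Set A) : ℕ := Module.finrank K (trans tr C)

/-- Every subspace of `T` which is stable under a subgroup of finite index is `0` or `T`. -/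
def Irred (ρ : Γ →* (A ≃ₐ[K] A)) (T : Submodule K A) : Prop :=
  ∀ Δ : Subgroup Γ, Δ.FiniteIndex → ∀ U ≤ T, (∀ g ∈ Δ, ∀ a ∈ U, ρ g a ∈ U) → U = ⊥ ∨ U = T

/-- `g` acts on `T` by the Picard-Lefschetz formula `t ↦ t + c tr(δ t) δ`, where `c` and `δ ∈ T` are
not zero. -/
def PLActs (tr : A →ₗ[K] K) (T : Submodule K A) (ρ : Γ →* (A ≃ₐ[K] A)) (g : Γ) : Prop :=
  ∃ δ ∈ T, δ ≠ 0 ∧ ∃ c : K, c ≠ 0 ∧ ∀ t ∈ T, ρ g t = t + (c * tr (δ * t)) • δ

/-- `g` acts trivially. -/
def Fixes (ρ : Γ →* (A ≃ₐ[K] A)) (g : Γ) : Prop := ∀ a, ρ g a = a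

/-- The field `K` contains only finitely many elements of the form `ζ + ζ⁻¹`, where `ζ` is a root
of unity in an algebraic closure of `K` (for instance, `K` is a finite extension of `ℚ_ℓ`). -/
def FewRoots (K : Type*) [Field K] : Prop :=
  {y : K | ∃ ζ : AlgebraicClosure K, (∃ m ≥ 1, ζ ^ m = 1) ∧
    algebraMap K (AlgebraicClosure K) y = ζ + ζ⁻¹}.Finite

/-- For the algebra `A` (of a variety of dimension `n`): numerical and homological equivalence
coincide, the transcendental classes are in the middle degree and irreducible under all subgroups of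
finite index. -/
structure TransIrred (gr : ℕ → Submodule K A) (n : ℕ) (tr : A →ₗ[K] K) (C : ℕ → Set A)
    (ρ : Γ →* (A ≃ₐ[K] A)) : Prop where
  numEqHom : NumEqHom tr C
  middle : trans tr C ≤ gr n
  irred : Irred ρ (trans tr C)

/-- The elements of `H p` are linear combinations of elements of `C p`. -/
def Algebraic (K : Type*) {A : Type*} [Field K] [Ring A] [Algebra K A] (C H : ℕ → Set A) (p : ℕ) :
    Prop :=
  ∀ c ∈ H p, c ∈ Submodule.span K (C p)

/-- The direct image of some algebraic class is `1`. -/
def Dominant {B : Type*} [Ring B] [Algebra K B] (g : A →ₗ[K] B) (C : ℕ → Set A) : Prop :=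
  ∃ i, ∃ w ∈ C i, g w = 1

/-- Let `R` and `S` be the cohomology algebras of varieties `T` and `Z` of dimensions `n` and `m`,
with the sets `C j` and `D j` of the classes of algebraic cycles of codimension `j` and the sets `H j`
and `I j` of the absolute Hodge classes of degree `2 j`, and `f : S → R` the homomorphism given by a
morphism from `T` to `Z`.

* The absolute Hodge classes of degree `2 p` on `T` are the linear combinations of the products of
  classes of algebraic cycles of codimension `i` on `T` and of pull-backs of absolute Hodge classes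
  of degree `2 j` on `Z`, for all `i`, `j` with `i + j = p` and `i ≤ n - m`.
* All absolute Hodge classes of degree `2 p` on `T` are algebraic if and only if all absolute Hodge
  classes of degree `2 j` on `Z` are algebraic for all `j` with `0 ≤ p - j ≤ n - m`. -/
structure Split {R S : Type*} [Ring R] [Algebra K R] [Ring S] [Algebra K S] (n m : ℕ)
    (C H : ℕ → Set R) (D I : ℕ → Set S) (f : S →ₐ[K] R) : Prop where
  classes : ∀ p, H p = {c | c ∈ Submodule.span K {c | ∃ i j, i + j = p ∧ i + m ≤ n ∧
    ∃ e ∈ C i, ∃ z ∈ I j, c = e * f z}}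
  algebraic : ∀ p, Algebraic K C H p ↔ ∀ j ≤ p, p + m ≤ j + n → Algebraic K D I j

end Alg

open Pool.Agent.H914 Pool.Agent.H914.VarClass Pool.Agent.H914.VarClass.Obj
  Pool.Agent.H914.WeilCohomology
open Pool.Agent.Y133.Hdg Pool.Agent.Y133.Abs
open Pool.Agent.Y129 (pw)

variable {k : Type u} [Field k] {𝒱 : VarClass k} {ops : CycleOps 𝒱}

/-- The classes of algebraic cycles of codimension `j`. -/
def cycs (W : WeilCohomology.{u, v} ops) (X : 𝒱.Obj) (j : ℕ) : Set (W.H X) :=
  {c | ∃ z, X.IsCyc j z ∧ cyc W X z = c}

/-- A comparison isomorphism between the cohomology theories `W` and `V` (after the extension of the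
coefficients), compatible with pull-backs and with the classes of algebraic cycles. -/
structure Realization (W : WeilCohomology.{u, v} ops) (V : WeilCohomology.{u, w} ops) where
  /-- the homomorphism between the coefficient fields -/
  coe : Hm W.K V.K
  /-- the comparison -/
  hom : ∀ X : 𝒱.Obj, Hm (W.H X) (V.H X)
  form : ∀ X, IsComparison coe (W.gr X) (V.gr X) (W.tr X) (V.tr X) (cyc W X) (cyc V X) (hom X)
  map : ∀ {X Y : 𝒱.Obj} (f : X ⟶ Y), Commutes (hom Y) (hom X) (W.map f) (V.map f)

/-- A variety with an action of the group `Γ` on its cohomology algebra. -/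
structure GVar (V : WeilCohomology.{u, w} ops) (Γ : Type x) [Group Γ] where
  /-- the variety -/
  X : 𝒱.Obj
  /-- the action -/
  act : Act V.K (V.H X) Γ

variable {W : WeilCohomology.{u, v} ops} [Algebra W.K ℝ] {Ψ : HodgeStr W}
  {V : WeilCohomology.{u, w} ops} {Γ : Type x} [Group Γ]

/-- The absolute Hodge classes of degree `2 j`. -/
def absClasses (C : Conjugates W Ψ) (X : 𝒱.Obj) (j : ℕ) : Set (W.H X) := {c | IsAbsHodge C X j c}

/-- `P` is the product of `A` and `B`, with an action on the cohomology which is compatible with the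
projections. -/
inductive IsProd : GVar V Γ → GVar V Γ → GVar V Γ → Prop
  | mk {X Y : 𝒱.Obj} (ρ : Act V.K (V.H X) Γ) (σ : Act V.K (V.H Y) Γ)
      (υ : Act V.K (V.H (X.prod Y)) Γ) : Equivar (V.map (fst X Y)) (V.map (snd X Y)) ρ σ υ →
      IsProd ⟨X, ρ⟩ ⟨Y, σ⟩ ⟨X.prod Y, υ⟩

/-- The members of `G` are varieties with an action of `Γ` on the cohomology `V` which has the formal
properties of a Galois action, also with respect to the absolute Hodge classes, and `G` is closed
under products. -/
structure AbsClass [TopologicalSpace Γ] (C : Conjugates W Ψ) (κ : Realization W V)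
    (χ : Chr V.K Γ) (G : Set (GVar V Γ)) : Prop where
  galois : ∀ A ∈ G, IsGal χ (V.gr A.X) A.X.dim (V.tr A.X) (cycs V A.X)
    (images (κ.hom A.X) (absClasses C A.X)) A.act
  prod : ∀ A ∈ G, ∀ B ∈ G, ∃ P ∈ G, IsProd A B P

/-- `X i` and `Z` are members of the class `G`. Numerical and homological equivalence coincide for
the `X i`; their transcendental classes are in the middle degree and irreducible under all subgroups
of finite index; for every `i` there is an element of `Γ` which acts on the transcendental classes of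
`X i` by a Picard-Lefschetz formula and trivially on the cohomology of `Z` and the other `X j` and by
`χ`; if some `X i` has even dimension the coefficient field contains only finitely many `ζ + ζ⁻¹`,
`ζ` a root of unity. -/
structure NodalFam (χ : Chr V.K Γ) (G : Set (GVar V Γ)) {ι : Type} (X : ι → GVar V Γ)
    (Z : GVar V Γ) : Prop where
  mem : ∀ i, X i ∈ G
  mem_base : Z ∈ G
  irred : ∀ i, TransIrred (V.gr (X i).X) (X i).X.dim (V.tr (X i).X) (cycs V (X i).X) (X i).act
  node : ∀ i, ∃ g : Γ, PLActs (V.tr (X i).X) (trans (V.tr (X i).X) (cycs V (X i).X)) (X i).act g ∧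
    χ g = 1 ∧ Fixes Z.act g ∧ ∀ j, j ≠ i → Fixes (X j).act g
  few : (∃ i, Even (X i).X.dim) → FewRoots V.K

/-- The indices in the list are pairwise different, and `n + 1` is less than the dimension of the
transcendental part of `X i` for the pairs `(i, n)` for which `X i` has even dimension. -/
def Admissible {ι : Type} (X : ι → GVar V Γ) (L : List (ι × ℕ)) : Prop :=
  (L.map Prod.fst).Nodup ∧ ∀ a ∈ L, Even (X a.1).X.dim → 
    a.2 + 1 < tRank (V.tr (X a.1).X) (cycs V (X a.1).X)

/-- The product `X i₁ ^ (n₁ + 1) × (X i₂ ^ (n₂ + 1) × (⋯ × Z))` for the list of the `(i, n)`. -/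
noncomputable def twr {ι : Type} (X : ι → 𝒱.Obj) (Z : 𝒱.Obj) : List (ι × ℕ) → 𝒱.Obj
  | [] => Z
  | a :: L => (pw (X a.1) a.2).prod (twr X Z L)

/-- The projection of `X i₁ ^ (n₁ + 1) × (X i₂ ^ (n₂ + 1) × (⋯ × Z))` to `Z`. -/
noncomputable def twrBase {ι : Type} (X : ι → 𝒱.Obj) (Z : 𝒱.Obj) :
    (L : List (ι × ℕ)) → (twr X Z L ⟶ Z)
  | [] => 𝟙 Z
  | a :: L => snd (pw (X a.1) a.2) (twr X Z L) ≫ twrBase X Z L

/-- The absolute Hodge classes on `T` come from `Z`; and if all absolute Hodge classes of degree `2 p`
on `T` are algebraic then the same is true for the varieties `B` that are dominated by `T` (there is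
a morphism from `T` to `B` such that the direct image of the class of some algebraic cycle is `1`). -/
structure AbsSplit (C : Conjugates W Ψ) {T Z : 𝒱.Obj} (q : T ⟶ Z) : Prop where
  split : Split T.dim Z.dim (cycs W T) (absClasses C T) (cycs W Z) (absClasses C Z) (W.map q)
  dominated : ∀ (B : 𝒱.Obj) (g : T ⟶ B), Dominant (W.push g) (cycs W T) → ∀ p,
    Algebraic W.K (cycs W T) (absClasses C T) p → Algebraic W.K (cycs W B) (absClasses C B) p

end Pool.Agent.J4.H21.AH
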