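import Pool.Agent.J4.H21.AH.Base

/-!
# Absolute Hodge classes are potential Tate classes
-/

set_option autoImplicit false
set_option linter.unusedSectionVars false

open CategoryTheory AlgebraicGeometry

universe u v w x

namespace Pool.Agent.J4.H21.AH

/-- A closed subgroup of a compact group with countably many cosets is open. -/
theorem isOpen_of_countable {Γ : Type*} [Group Γ] [TopologicalSpace Γ] [IsTopologicalGroup Γ]
    [CompactSpace Γ] (Δ : Subgroup Γ) (hc : IsClosed (Δ : Set Γ)) [Countable (Γ ⧸ Δ)] :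
    IsOpen (Δ : Set Γ) := by
  have hne : Nonempty Γ := ⟨1⟩
  obtain ⟨q, hq⟩ := nonempty_interior_of_iUnion_of_closed
    (f := fun q : Γ ⧸ Δ => {g : Γ | (g : Γ ⧸ Δ) = q}) (fun q => by
      obtain ⟨g₀, rfl⟩ := QuotientGroup.mk_surjective q
      have h1 : {g : Γ | (g : Γ ⧸ Δ) = (g₀ : Γ ⧸ Δ)} = (fun g => g⁻¹ * g₀) ⁻¹' (Δ : Set Γ) := by
        ext g
        exact QuotientGroup.eq
      rw [h1]
      exact hc.preimage (by fun_prop)) (by
      rw [Set.eq_univ_iff_forall]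
      intro g
      exact Set.mem_iUnion.2 ⟨g, rfl⟩)
  obtain ⟨g, hg⟩ := hq
  have h2 : {h : Γ | (h : Γ ⧸ Δ) = q} ∈ nhds g := mem_interior_iff_mem_nhds.1 hg
  have hgq : g ∈ {h : Γ | (h : Γ ⧸ Δ) = q} := interior_subset hg
  refine Subgroup.isOpen_of_mem_nhds Δ (g := 1) ?_
  have h3 : (fun h => g * h) ⁻¹' {h : Γ | (h : Γ ⧸ Δ) = q} ∈ nhds (1 : Γ) := by
    refine ContinuousAt.preimage_mem_nhds (by fun_prop) ?_
    rwa [mul_one]
  refine Filter.mem_of_superset h3 fun h hh => ?_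
  have h4 : ((g * h : Γ) : Γ ⧸ Δ) = (g : Γ ⧸ Δ) :=
    (show ((g * h : Γ) : Γ ⧸ Δ) = q from hh).trans (show (g : Γ ⧸ Δ) = q from hgq).symm
  have h5 := QuotientGroup.eq.1 h4.symm
  rwa [inv_mul_cancel_left] at h5

section alg

variable {K A : Type*} [Field K] [Ring A] [Algebra K A] {Γ : Type*} [Group Γ]

/-- Some subgroup of finite index multiplies the element `c` by `χ ^ j`. -/
def PotTate (χ : Γ →* Kˣ) (ρ : Γ →* (A ≃ₐ[K] A)) (j : ℕ) (c : A) : Prop :=
  ∃ Δ : Subgroup Γ, Δ.FiniteIndex ∧ ∀ g ∈ Δ, ρ g c = (χ g : K) ^ j • c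

/-- the stabilizer -/
def stab (χ : Γ →* Kˣ) (ρ : Γ →* (A ≃ₐ[K] A)) (j : ℕ) (c : A) : Subgroup Γ where
  carrier := {g | ρ g c = (χ g : K) ^ j • c}
  one_mem' := by
    show ρ 1 c = ((χ 1 : Kˣ) : K) ^ j • c
    rw [map_one, map_one, Units.val_one, one_pow, one_smul]
    rfl
  mul_mem' := by
    intro g h hg hh
    show ρ (g * h) c = ((χ (g * h) : Kˣ) : K) ^ j • c
    have h1 : ρ g c = (χ g : K) ^ j • c := hg
    have h2 : ρ h c = (χ h : K) ^ j • c := hh
    rw [map_mul, map_mul, Units.val_mul, mul_pow]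
    change ρ g (ρ h c) = _
    rw [h2, map_smul, h1, smul_smul, mul_comm]
  inv_mem' := by
    intro g hg
    show ρ g⁻¹ c = ((χ g⁻¹ : Kˣ) : K) ^ j • c
    have h1 : ρ g c = (χ g : K) ^ j • c := hg
    have hχ : (χ g : K) ≠ 0 := Units.ne_zero _
    have h2 : ρ g⁻¹ (ρ g c) = c := by
      have : (ρ g⁻¹ * ρ g) c = c := by
        rw [← map_mul, inv_mul_cancel, map_one]
        rfl
      exact this
    rw [h1, map_smul] at h2
    rw [map_inv χ, Units.val_inv_eq_inv_val, inv_pow]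
    conv_rhs => rw [← h2]
    rw [smul_smul, inv_mul_cancel₀ (pow_ne_zero _ hχ), one_smul]

theorem mem_stab {χ : Γ →* Kˣ} {ρ : Γ →* (A ≃ₐ[K] A)} {j : ℕ} {c : A} {g : Γ} :
    g ∈ stab χ ρ j c ↔ ρ g c = (χ g : K) ^ j • c := Iff.rfl

/-- **Countable stable sets consist of potential Tate classes.** -/
theorem IsGal.potTate [TopologicalSpace Γ] [IsTopologicalGroup Γ] [CompactSpace Γ]
    {χ : Γ →* Kˣ} {gr : ℕ → Submodule K A} {n : ℕ} {tr : A →ₗ[K] K} {C H : ℕ → Set A}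
    {ρ : Γ →* (A ≃ₐ[K] A)} (h : IsGal χ gr n tr C H ρ) {j : ℕ} (hH : (H j).Countable) {c : A}
    (hc : c ∈ H j) : PotTate χ ρ j c := by
  choose c' hc' hcc using fun g => h.abs g j c hc
  set Δ := stab χ ρ j c with hΔ
  have hinj : ∀ g g' : Γ, c' g = c' g' → g⁻¹ * g' ∈ Δ := by
    intro g g' hgg
    rw [hΔ, mem_stab]
    have h1 := hcc g
    have h2 := hcc g'
    rw [← hgg] at h2
    have hχ : (χ g : K) ≠ 0 := Units.ne_zero _
    have h3 : ρ g⁻¹ (ρ g c) = c := by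
      have : (ρ g⁻¹ * ρ g) c = c := by
        rw [← map_mul, inv_mul_cancel, map_one]
        rfl
      exact this
    rw [h1, map_smul] at h3
    have h4 : ρ g⁻¹ (c' g) = ((χ g : K) ^ j)⁻¹ • c := by
      rw [← h3, smul_smul, inv_mul_cancel₀ (pow_ne_zero _ hχ), one_smul]
    rw [map_mul]
    change ρ g⁻¹ (ρ g' c) = _
    rw [h2, map_smul, h4, smul_smul, map_mul χ, map_inv χ, Units.val_mul,
      Units.val_inv_eq_inv_val, mul_pow, inv_pow, mul_comm]
  have hcount : Countable (H j) := hH.to_subtype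
  have hquot : Countable (Γ ⧸ Δ) := by
    refine Function.Injective.countable
      (f := fun q : Γ ⧸ Δ => (⟨c' q.out, hc' q.out⟩ : H j)) ?_
    intro q q' hqq
    have h1 := hinj _ _ (congrArg Subtype.val hqq)
    rw [← QuotientGroup.out_eq' q, ← QuotientGroup.out_eq' q']
    exact QuotientGroup.eq.2 h1
  have hopen : IsOpen (Δ : Set Γ) := isOpen_of_countable Δ (h.closed j _)
  have := Δ.quotient_finite_of_isOpen hopen
  exact ⟨Δ, Subgroup.finiteIndex_of_finite_quotient, fun g hg => hg⟩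

end alg

open Pool.Agent.H914 Pool.Agent.H914.VarClass Pool.Agent.H914.VarClass.Obj
  Pool.Agent.H914.WeilCohomology
open Pool.Agent.Y133.Hdg Pool.Agent.Y133.Abs
open Pool.Agent.TH125.Gal (GaloisClass IsGaloisAct LSpan)
open Pool.Agent.Y129 (pw)
open Pool.Agent.Y133.Half (ClassPred)

variable {k : Type u} [Field k] {𝒱 : VarClass k} {ops : CycleOps 𝒱}
  {W : WeilCohomology.{u, v} ops} [Algebra W.K ℝ] {Ψ : HodgeStr W}
  {V : WeilCohomology.{u, w} ops} {Γ : Type x} [Group Γ]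

/-- The members of `G` as varieties with an action. -/
def gset (G : Set (GVar V Γ)) : Set (Pool.Agent.TH125.Gal.GVar V Γ) := {A | ⟨A.X, A.act⟩ ∈ G}

section abs

variable [TopologicalSpace Γ] [IsTopologicalGroup Γ] [CompactSpace Γ] [Countable W.K]
  {C : Conjugates W Ψ} {κ : Realization W V} {χ : Chr V.K Γ} {G : Set (GVar V Γ)}

theorem AbsClass.potTate (h : AbsClass C κ χ G) {A : GVar V Γ} (hA : A ∈ G) {j : ℕ}
    {c : W.H A.X} (hc : IsAbsHodge C A.X j c) : PotTate χ A.act j (κ.hom A.X c) := by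
  refine (h.galois A hA).potTate ?_ ⟨c, hc, rfl⟩
  have hcount : Countable (W.H A.X) :=
    (Module.finBasis W.K (W.H A.X)).equivFun.injective.countable
  exact Set.Countable.image (Set.to_countable _) _

theorem AbsClass.galoisClass (h : AbsClass C κ χ G) : GaloisClass χ (gset G) := by
  constructor
  · intro A hA
    have h1 := h.galois _ hA
    refine ⟨h1.gr_mem, h1.tr_act, h1.cyc, ?_⟩
    rintro j _ ⟨z, hz, rfl⟩
    have h2 := h.potTate hA (j := j) (c := W.cl A.X z) ((absPred C).cl hz)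
    rw [κ.cl'] at h2
    exact h2
  · intro A hA B hB
    obtain ⟨P, hP, hAB⟩ := h.prod _ hA _ hB
    obtain ⟨X, ρ⟩ := A
    obtain ⟨Y, σ⟩ := B
    cases hAB with
    | mk _ _ υ hE =>
      exact ⟨⟨X.prod Y, υ⟩, hP, Pool.Agent.TH125.Gal.IsProdVar.mk (A := ⟨X, ρ⟩) (B := ⟨Y, σ⟩) υ
        (fun g a => (hE g).1 a) (fun g b => (hE g).2 b)⟩

end abs

theorem fromB_eq (C : Conjugates W Ψ) {T B : 𝒱.Obj} (q : T ⟶ B) (p : ℕ) :
    fromB (absPred C) q p = Submodule.span W.K {c | ∃ i j, i + j = p ∧ i + B.dim ≤ T.dim ∧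
      ∃ e ∈ cycs W T i, ∃ z ∈ absClasses C B j, c = e * W.map q z} := by
  rw [fromB]
  congr 1
  ext c
  constructor
  · rintro ⟨i, j, e, z, hij, hi, he, hz, rfl⟩
    exact ⟨i, j, hij, hi, W.cl T e, ⟨e, he, rfl⟩, z, hz, rfl⟩
  · rintro ⟨i, j, hij, hi, _, ⟨e, he, rfl⟩, z, hz, rfl⟩
    exact ⟨i, j, e, z, hij, hi, he, hz, rfl⟩

theorem span_cycs (X : 𝒱.Obj) (j : ℕ) : Submodule.span W.K (cycs W X j) = spanCycles W X j := by
  apply le_antisymm
  · rw [Submodule.span_le]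
    rintro _ ⟨z, hz, rfl⟩
    exact Submodule.subset_span ⟨j, by simp, z, hz, rfl⟩
  · refine Submodule.span_le.2 ?_
    rintro _ ⟨p, hp, z, hz, rfl⟩
    obtain rfl : p = j := by exact_mod_cast hp
    exact Submodule.subset_span ⟨z, hz, rfl⟩

/-- From a class of cohomology classes to absolute Hodge classes. -/
theorem absSplit_of_qsplit (C : Conjugates W Ψ) {T B : 𝒱.Obj}
    {q : T ⟶ B} (h : QSplit (absPred C) q) : AbsSplit C q := by
  have h0 : ∀ (X : 𝒱.Obj) (j : ℕ), Algebraic W.K (cycs W X) (absClasses C X) j ↔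
      QAlg (absPred C) X j := by
    intro X j
    rw [Algebraic, span_cycs]
    exact Iff.rfl
  refine ⟨⟨fun p => ?_, fun p => ?_⟩, ?_⟩
  · ext c
    show IsAbsHodge C T p c ↔ _
    rw [Set.mem_ofPred_eq, ← fromB_eq]
    refine ⟨fun hc => h.kun p c hc, fun hc => ?_⟩
    induction hc using Submodule.span_induction with
    | mem c hc =>
      obtain ⟨i, j, e, z, hij, -, he, hz, rfl⟩ := hc
      rw [← hij]
      exact (absPred C).mul ((absPred C).cl he) ((absPred C).map q hz)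
    | zero => exact (absPred C).zero
    | add a b _ _ ha hb => exact (absPred C).add ha hb
    | smul r a _ ha => exact (absPred C).smul r ha
  · simp only [h0]
    exact h.alg p
  · rintro B' g ⟨i, _, ⟨w, hw, rfl⟩, h1⟩ p
    rw [h0, h0]
    exact qalg_dominated (Q := absPred C) hw h1

theorem twr_dim {ι : Type} (X : ι → 𝒱.Obj) (Z : 𝒱.Obj) (L : List (ι × ℕ)) :
    Z.dim ≤ (twr X Z L).dim := by
  induction L with
  | nil => exact le_rfl
  | cons a L ih => exact ih.trans (Nat.le_add_left _ _)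

/-- **The classes on towers.** -/
theorem QSplit.twr (κ : Realization W V) {Q : ClassPred W} (hHR : ∀ A, ∃ D, Q.HR A D) {ι : Type}
    (X : ι → 𝒱.Obj) (Z : 𝒱.Obj) (L : List (ι × ℕ))
    (h1 : ∀ a ∈ L, (1 : V.H (pw (X a.1) a.2)) ≠ 0)
    (h : ∀ a L', a :: L' <:+ L → ∀ p (c : W.H ((pw (X a.1) a.2).prod (AH.twr X Z L'))),
      Q.P _ p c → κ.hom _ c ∈ LSpan V (pw (X a.1) a.2) (AH.twr X Z L')) :
    QSplit Q (twrBase X Z L) := by
  induction L with
  | nil => exact QSplit.refl Q Z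
  | cons a L ih =>
    refine QSplit.comp (hHR _) (κ.one_ne (h1 a List.mem_cons_self))
      (ih (fun b hb => h1 b (List.mem_cons_of_mem _ hb))
        fun b L' hb => h b L' (hb.trans (List.suffix_cons a L))) (twr_dim _ _ _) ?_
    intro p c hc
    exact mem_cross κ (hHR _) (h a L List.suffix_rfl) hc

end Pool.Agent.J4.H21.AH
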