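import Pool.Agent.J4.H21.AH.Gal
import Pool.Agent.TH125.Gal.Lef

/-!
# Absolute Hodge classes on products with powers of varieties with nodal reduction
-/

set_option autoImplicit false
set_option linter.unusedSectionVars false

open CategoryTheory AlgebraicGeometry

universe u v w x

namespace Pool.Agent.J4.H21.AH

open Pool.Agent.H914 Pool.Agent.H914.VarClass Pool.Agent.H914.VarClass.Obj
  Pool.Agent.H914.WeilCohomology Pool.Agent.H281R3.HT Pool.Agent.W536.RR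
open Pool.Agent.Y133.Half (ClassPred)
open Pool.Agent.Y129 (pw)
open Pool.Agent.Y133.Hdg Pool.Agent.Y133.Abs
open Pool.Agent.TH125.Gal (GaloisClass IsGaloisAct LSpan tower' IsPowAct IrredAct PLAct TrivAct
  transRank tgt_lspan exists_monoBasis isGalois trivAct exists_tr mono tr_mono exists_tower_act
  exists_pow_act exists_SB)
open Pool.Agent.W552 Pool.Agent.H447

variable {k : Type u} [Field k] {𝒱 : VarClass k} {ops : CycleOps 𝒱}
  {W : WeilCohomology.{u, v} ops} {V : WeilCohomology.{u, w} ops}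
  {Γ : Type x} [Group Γ] {χ : Γ →* V.Kˣ}

theorem pw_eq (A : 𝒱.Obj) (n : ℕ) : pw A n = (nest ops n fun _ => (⟨A, 0⟩ : Polarized 𝒱)).X := by
  induction n with
  | zero => rfl
  | succ n ih =>
    rw [pw, ih]
    rfl

theorem twr_eq {ι : Type} (X : ι → 𝒱.Obj) (Z : 𝒱.Obj) (L : List (ι × ℕ)) :
    twr X Z L = (tower' ops (fun i => (⟨X i, 0⟩ : Polarized 𝒱)) ⟨Z, 0⟩ L).X := by
  induction L with
  | nil => rfl
  | cons a L ih =>
    rw [twr, pw_eq (ops := ops), ih]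
    rfl

theorem trans_eq (X : 𝒱.Obj) : trans (V.tr X) (cycs V X) = transcendental V X := by
  ext t
  rw [trans, transcendental, orthCompl]
  simp only [Submodule.mem_iInf, LinearMap.mem_ker, LinearMap.comp_apply, LinearMap.mulRight_apply]
  constructor
  · intro h c hc
    obtain ⟨j, hj⟩ := Set.mem_iUnion.1 hc
    exact h j c hj
  · intro h j c hc
    exact h c (Set.mem_iUnion.2 ⟨j, hc⟩)

theorem tRank_eq (X : 𝒱.Obj) : tRank (V.tr X) (cycs V X) = transRank V X := by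
  rw [tRank, transRank, trans_eq]

theorem homEqNum_of (X : 𝒱.Obj) (h : NumEqHom (V.tr X) (cycs V X)) : HomEqNum V X := by
  intro j hj z hz hnum
  refine h j _ ⟨z, hz, rfl⟩ ?_
  rintro i _ ⟨w, hw, rfl⟩
  show V.tr X (V.cl X z * V.cl X w) = 0
  by_cases hi : j + i = X.dim
  · rw [← V.cl_mul, V.tr_cl (hi ▸ ops.mul_mem hz hw), hnum w (by
      rwa [show X.dim - j = i by omega])]
    simp
  · exact V.tr_eq_zero (V.mul_mem (V.cl_mem hz) (V.cl_mem hw)) (by omega)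

/-- The conditions for the variety `A`, relative to `B`. -/
structure Nodal1 (χ : Γ →* V.Kˣ) {A B : 𝒱.Obj} (ρ : Γ →* (V.H A ≃ₐ[V.K] V.H A))
    (σ : Γ →* (V.H B ≃ₐ[V.K] V.H B)) (n : ℕ) : Prop where
  homEqNum : HomEqNum V A
  middle : transcendental V A ≤ V.gr A A.dim
  irred : IrredAct ρ (transcendental V A)
  node : ∃ g : Γ, PLAct (V.tr A) (transcendental V A) ρ g ∧ χ g = 1 ∧ TrivAct σ g
  few : Even A.dim → Pool.Agent.TH125.Gal.FewRoots V.K ∧ n + 1 < transRank V A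

/-- The potential Tate classes on a product. -/
theorem Nodal1.mem_lspan {A B : 𝒱.Obj} {ρ : Γ →* (V.H A ≃ₐ[V.K] V.H A)}
    {σ : Γ →* (V.H B ≃ₐ[V.K] V.H B)} {n : ℕ}
    (hG : IsGaloisAct χ (V.gr A) A.dim (V.tr A) (algClasses V A) ρ) (h : Nodal1 χ ρ σ n)
    {υ : Γ →* (V.H ((nest ops n fun _ => (⟨A, 0⟩ : Polarized 𝒱)).X.prod B) ≃ₐ[V.K]
        V.H ((nest ops n fun _ => (⟨A, 0⟩ : Polarized 𝒱)).X.prod B))}
    (hP : IsPowAct V ⟨A, 0⟩ n B ρ σ υ) {j : ℕ}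
    {c : V.H ((nest ops n fun _ => (⟨A, 0⟩ : Polarized 𝒱)).X.prod B)}
    (hc : PotTate χ υ j c) :
    c ∈ LSpan V (nest ops n fun _ => (⟨A, 0⟩ : Polarized 𝒱)).X B := by
  obtain ⟨s⟩ := exists_SB h.homEqNum
  obtain ⟨b, hb⟩ := exists_monoBasis (ops := ops) (⟨A, 0⟩ : Polarized 𝒱) s.e n
  obtain ⟨g, hPL, hχ, hg⟩ := h.node
  obtain ⟨Δ, hΔ, h1⟩ := hc
  refine tgt_lspan (A := ⟨A, ρ⟩) (D := 0) (s := s) h.homEqNum h.middle ?_
  exact Pool.Agent.TH125.Gal.mem_Tgt (P := ⟨A, 0⟩) hb h.homEqNum h.middle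
    (isGalois hG) hP h.irred hχ (trivAct.1 hg) hPL h.few hΔ h1

theorem Nodal1.one_ne {A B : 𝒱.Obj} {ρ : Γ →* (V.H A ≃ₐ[V.K] V.H A)}
    {σ : Γ →* (V.H B ≃ₐ[V.K] V.H B)} {n : ℕ} (h : Nodal1 χ ρ σ n) :
    (1 : V.H (nest ops n fun _ => (⟨A, 0⟩ : Polarized 𝒱)).X) ≠ 0 := by
  have h0 : (1 : V.H A) ≠ 0 := by
    obtain ⟨g, ⟨δ, hδ, hδ0, _⟩, _⟩ := h.node
    intro h3
    apply hδ0
    rw [← one_mul δ, h3, zero_mul]
  obtain ⟨x, hx⟩ := exists_tr h0
  have h2 : V.tr (nest ops n fun _ => (⟨A, 0⟩ : Polarized 𝒱)).X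
      (mono (prj ops n fun _ => (⟨A, 0⟩ : Polarized 𝒱)) fun _ => x) ≠ 0 := by
    rw [tr_mono]
    exact pow_ne_zero _ hx
  intro h0
  apply h2
  rw [← one_mul (mono _ _), h0, zero_mul, map_zero]

variable {ι : Type} {X : ι → GVar V Γ} {Z : GVar V Γ} {G : Set (GVar V Γ)}

/-- the conditions for one step -/
theorem nodal1_of (h : NodalFam χ G X Z) {a : ι × ℕ} {Y : 𝒱.Obj}
    {υ : Γ →* (V.H Y ≃ₐ[V.K] V.H Y)} {L : List (ι × ℕ)} (hL : a.1 ∉ L.map Prod.fst)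
    (hn : Even (X a.1).X.dim → a.2 + 1 < transRank V (X a.1).X)
    (hυ : ∀ g, (∀ a ∈ L, TrivAct (X a.1).act g) → TrivAct Z.act g → TrivAct υ g) :
    Nodal1 χ (X a.1).act υ a.2 := by
  have h1 := h.irred a.1
  refine ⟨homEqNum_of _ h1.numEqHom, ?_, ?_, ?_, fun h' => ⟨h.few ⟨_, h'⟩, hn h'⟩⟩
  · rw [← trans_eq]; exact h1.middle
  · rw [← trans_eq]; exact h1.irred
  obtain ⟨g, hPL, hχ, hgZ, hgX⟩ := h.node a.1
  rw [trans_eq] at hPL
  refine ⟨g, hPL, hχ, hυ g (fun b hb => hgX b.1 fun h0 => hL ?_) hgZ⟩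
  exact List.mem_map.2 ⟨b, hb, h0⟩

/-- **The classes on towers.** -/
theorem nodal_split [Algebra W.K ℝ] (κ : Realization W V) {Q : ClassPred W}
    (hHR : ∀ A, ∃ D, Q.HR A D) (hG : GaloisClass χ (gset G)) (h : NodalFam χ G X Z)
    (hQ : ∀ A ∈ G, ∀ j c, Q.P A.X j c → PotTate χ A.act j (κ.hom A.X c))
    (L : List (ι × ℕ)) (hL : Admissible X L) :
    QSplit Q (twrBase (fun i => (X i).X) Z.X L) := by
  have key : ∀ a L', a :: L' <:+ L → a.1 ∉ L'.map Prod.fst ∧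
      (Even (X a.1).X.dim → a.2 + 1 < transRank V (X a.1).X) := by
    intro a L' ha
    refine ⟨?_, fun h' => ?_⟩
    · have h1 := hL.1.sublist (ha.sublist.map Prod.fst)
      rw [List.map_cons, List.nodup_cons] at h1
      exact h1.1
    · rw [← tRank_eq]
      exact hL.2 a (ha.subset List.mem_cons_self) h'
  have hX : ∀ i, (⟨(X i).X, (X i).act⟩ : Pool.Agent.TH125.Gal.GVar V Γ) ∈ gset G := h.mem
  have hZ : (⟨Z.X, Z.act⟩ : Pool.Agent.TH125.Gal.GVar V Γ) ∈ gset G := h.mem_base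
  refine QSplit.twr κ hHR _ _ L (fun a ha => ?_) fun a L' ha p c hc => ?_
  · have h1 := nodal1_of (χ := χ) (Y := Z.X) (υ := Z.act) (L := []) h (a := a) (by simp)
      (fun h' => by rw [← tRank_eq]; exact hL.2 a ha h') (fun g _ hg => hg)
    have h2 := h1.one_ne (ops := ops)
    rwa [← pw_eq] at h2
  · obtain ⟨τ, hτ, hτ'⟩ := exists_tower_act
      (X := fun i => (⟨(X i).X, (X i).act⟩ : Pool.Agent.TH125.Gal.GVar V Γ))
      (Z := ⟨Z.X, Z.act⟩) (D := fun _ => 0) hG hX hZ 0 L'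
    have hN := nodal1_of (Y := (tower' ops (fun i => ⟨(X i).X, 0⟩) ⟨Z.X, 0⟩ L').X)
      (υ := τ) h (key a L' ha).1 (key a L' ha).2 hτ'
    obtain ⟨υ, hυ, hP⟩ := exists_pow_act hG (hX a.1) hτ 0 a.2
    have e1 := pw_eq (ops := ops) (X a.1).X a.2
    have e2 := twr_eq (ops := ops) (fun i => (X i).X) Z.X L'
    revert c
    rw [e1, e2]
    intro c hc
    exact hN.mem_lspan (hG.galois _ (hX a.1)) hP (hQ ⟨_, υ⟩ hυ p c hc)

/-- **Absolute Hodge classes on towers of varieties with nodal reduction.** -/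
theorem nodal_main [Algebra W.K ℝ] [Countable W.K] [TopologicalSpace Γ] [IsTopologicalGroup Γ]
    [CompactSpace Γ] {Ψ : HodgeStr W} {C : Conjugates W Ψ} {κ : Realization W V}
    (hG : AbsClass C κ χ G) (h : NodalFam χ G X Z) (L : List (ι × ℕ)) (hL : Admissible X L) :
    AbsSplit C (twrBase (fun i => (X i).X) Z.X L) :=
  absSplit_of_qsplit C (nodal_split κ (Q := absPred C) (fun A => abs_hr C A) hG.galoisClass
    h (fun _ hA _ _ hc => hG.potTate hA hc) L hL)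

end Pool.Agent.J4.H21.AH
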