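import Pool.Agent.J4.H21.AH.Defs
import Pool.Agent.Y133.Half.PredSys
import Pool.Agent.TH125.Gal.Fpp

/-!
# Comparison of cohomology theories
-/

set_option autoImplicit false
set_option linter.unusedSectionVars false

open CategoryTheory AlgebraicGeometry

universe u v w x

namespace Pool.Agent.J4.H21.AH

open Pool.Agent.H914 Pool.Agent.H914.VarClass Pool.Agent.H914.VarClass.Obj
  Pool.Agent.H914.WeilCohomology Pool.Agent.H281R3.HT
open Pool.Agent.Y133.Abs (cyc)
open Pool.Agent.W552 (AS)

variable {k : Type u} [Field k] {𝒱 : VarClass k} {ops : CycleOps 𝒱}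
  {W : WeilCohomology.{u, v} ops} {V : WeilCohomology.{u, w} ops} (κ : Realization W V)
  {X Y : 𝒱.Obj}

namespace Realization

theorem smul (r : W.K) (a : W.H X) : κ.hom X (r • a) = κ.coe r • κ.hom X a :=
  (κ.form X).smul r a

theorem gr_mem {i : ℕ} {a : W.H X} (ha : a ∈ W.gr X i) : κ.hom X a ∈ V.gr X i :=
  (κ.form X).gr_mem i a ha

theorem tr (a : W.H X) : V.tr X (κ.hom X a) = κ.coe (W.tr X a) := (κ.form X).tr a

theorem cl' (z : X.Cycles) : κ.hom X (W.cl X z) = V.cl X z := (κ.form X).cl z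

theorem map' (f : X ⟶ Y) (b : W.H Y) : κ.hom X (W.map f b) = V.map f (κ.hom Y b) := κ.map f b

theorem injective (X : 𝒱.Obj) : Function.Injective (κ.hom X) := by
  rw [injective_iff_map_eq_zero]
  intro a ha
  apply W.nondeg
  intro b
  have h1 := κ.tr (a * b)
  rw [map_mul, ha, zero_mul, map_zero] at h1
  exact (map_eq_zero κ.coe).1 h1.symm

/-- Linear maps on `H(X)` are determined by their values on the image. -/
theorem span_ind {p : V.H X → Prop} (h : ∀ a, p (κ.hom X a)) (h0 : p 0)
    (hadd : ∀ a b, p a → p b → p (a + b)) (hsmul : ∀ (r : V.K) a, p a → p (r • a))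
    (b : V.H X) : p b := by
  have hb : b ∈ Submodule.span V.K (Set.range (κ.hom X)) := by
    rw [(κ.form X).span]
    exact Submodule.mem_top
  induction hb using Submodule.span_induction with
  | mem x hx =>
    obtain ⟨a, rfl⟩ := hx
    exact h a
  | zero => exact h0
  | add x y _ _ hx hy => exact hadd x y hx hy
  | smul r x _ hx => exact hsmul r x hx

theorem push (f : X ⟶ Y) (a : W.H X) : κ.hom Y (W.push f a) = V.push f (κ.hom X a) := by
  apply V.tr_ext
  intro c
  refine κ.span_ind (p := fun c => V.tr Y (κ.hom Y (W.push f a) * c) =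
    V.tr Y (V.push f (κ.hom X a) * c)) ?_ ?_ ?_ ?_ c
  · intro b
    rw [← map_mul, κ.tr, W.tr_push, V.tr_push, ← κ.map', ← map_mul, κ.tr]
  · rw [mul_zero, mul_zero]
  · intro b b' hb hb'
    rw [mul_add, mul_add, map_add, map_add, hb, hb']
  · intro r b hb
    rw [mul_smul_comm, mul_smul_comm, map_smul, map_smul, hb]

include κ in
theorem one_ne (h : (1 : V.H X) ≠ 0) : (1 : W.H X) ≠ 0 := by
  intro h1
  apply h
  rw [← map_one (κ.hom X), h1, map_zero]

/-- Linear forms are given by the pairing. -/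
theorem _root_.Pool.Agent.J4.H21.AH.exists_dual (φ : W.H X →ₗ[W.K] W.K) :
    ∃ d : W.H X, ∀ a, φ a = W.tr X (d * a) := by
  have hnd : Function.Injective ((LinearMap.mul W.K (W.H X)).compr₂ (W.tr X)) := by
    rw [injective_iff_map_eq_zero]
    intro a ha
    exact W.nondeg a fun b => DFunLike.congr_fun ha b
  have h1 : Function.Surjective ((LinearMap.mul W.K (W.H X)).compr₂ (W.tr X)) :=
    (LinearMap.injective_iff_surjective_of_finrank_eq_finrank
      (Subspace.dual_finrank_eq (K := W.K) (V := W.H X)).symm).1 hnd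
  obtain ⟨d, hd⟩ := h1 φ
  exact ⟨d, fun a => (DFunLike.congr_fun hd a).symm⟩

/-- **Descent of the coefficients.** -/
theorem mem_of_span {S : Submodule W.K (W.H X)} {c : W.H X}
    (h : κ.hom X c ∈ Submodule.span V.K (κ.hom X '' S)) : c ∈ S := by
  by_contra hc
  obtain ⟨φ, hφ, hS⟩ := Submodule.exists_le_ker_of_notMem hc
  obtain ⟨d, hd⟩ := exists_dual φ
  have h1 : ∀ b ∈ Submodule.span V.K (κ.hom X '' S), V.tr X (κ.hom X d * b) = 0 := by
    intro b hb
    induction hb using Submodule.span_induction with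
    | mem x hx =>
      obtain ⟨a, ha, rfl⟩ := hx
      rw [← map_mul, κ.tr, ← hd, LinearMap.mem_ker.1 (hS ha), map_zero]
    | zero => rw [mul_zero, map_zero]
    | add x y _ _ hx hy => rw [mul_add, map_add, hx, hy, add_zero]
    | smul r x _ hx => rw [mul_smul_comm, map_smul, hx, smul_zero]
  have h2 := h1 _ h
  rw [← map_mul, κ.tr, ← hd] at h2
  exact hφ ((map_eq_zero κ.coe).1 h2)

/-- Descent of algebraic classes. -/
theorem mem_algSpan {c : W.H X} (h : κ.hom X c ∈ algSpan V X) : c ∈ algSpan W X := by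
  apply κ.mem_of_span
  refine (Submodule.span_le.2 ?_ : algSpan V X ≤ _) h
  intro x hx
  obtain ⟨j, z, hz, rfl⟩ := Set.mem_iUnion.1 hx
  exact Submodule.subset_span ⟨W.cl X z, Submodule.subset_span
    (Set.mem_iUnion.2 ⟨j, z, hz, rfl⟩), κ.cl' z⟩

end Realization

end Pool.Agent.J4.H21.AH
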